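import Pool.Agent.Results.MP_9caa86_co.StraightLineTheta

set_option autoImplicit false

/-!
# Poly-line upward planar drawings of bipartite DAGs: the area is quadratic

`A_p(n)`, the maximum over all `n`-vertex bipartite DAGs with an upward planar drawing of the minimum
area of an upward planar poly-line grid drawing, is `Θ(n²)`. The lower bound is given by nested
4-cycles with alternating directions, consecutive ones of which are joined by disjoint edges: bends
do not help, both the width and the height of each poly-line grid drawing are at least `n / 16`.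
The upper bound holds even without bends.
-/

namespace Pool.Agent.Results.MP_9caa86_co.PolyLineThetaH51

open Pool.Agent.T6.H90.Upward Pool.Agent.T6.H90.SL
open Pool.Agent.Results.MP_9caa86_co.StraightLineTheta

/-- `A_p(n)`: the maximum over all bipartite DAGs with `n` vertices that have an upward planar
drawing of the minimum area of an upward planar poly-line grid drawing. -/
noncomputable def maxPolyArea (n : ℕ) : ℝ :=
  sSup {A : ℝ | ∃ E : Fin n → Fin n → Prop, IsBipartiteDAG E ∧ Nonempty (CurveDrawing E) ∧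
    A = minPolyArea E}

theorem minPolyArea_le {V : Type} {E : V → V → Prop} (D : Drawing E) {W H : ℝ} (hW : 0 ≤ W)
    (hH : 0 ≤ H) (h : D.FitsIn W H) : minPolyArea E ≤ W * H := by
  refine csInf_le ⟨0, ?_⟩ ⟨D, W, H, hW, hH, h, rfl⟩
  rintro A ⟨D', W', H', hW', hH', -, rfl⟩
  exact mul_nonneg hW' hH'

/-- For every `n ≥ 22` some bipartite DAG with `n` vertices has an upward planar straight-line grid
drawing, but every upward planar poly-line grid drawing of it has width and height at least `n / 16`;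
and `A_p(n) = Θ(n²)`. -/
theorem result :
    (∀ n : ℕ, 22 ≤ n → ∃ E : Fin n → Fin n → Prop, IsBipartiteDAG E ∧
      (∃ D : Drawing E, D.Straight) ∧
      ∀ (D : Drawing E) (W H : ℝ), 0 ≤ W → 0 ≤ H → D.FitsIn W H →
        (n : ℝ) / 16 ≤ W ∧ (n : ℝ) / 16 ≤ H) ∧
    ∀ n : ℕ, 22 ≤ n → (n : ℝ) ^ 2 / 256 ≤ maxPolyArea n ∧
      maxPolyArea n ≤ 121032 * (n : ℝ) ^ 2 := by
  have hlow : ∀ n : ℕ, 22 ≤ n → ∀ (D : Drawing (EE (n / 4) n)) (W H : ℝ), 0 ≤ W → 0 ≤ H →
      D.FitsIn W H → (n : ℝ) / 16 ≤ W ∧ (n : ℝ) / 16 ≤ H := by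
    intro n hn D W H hW hH h
    obtain ⟨h1, h2⟩ := box_bound D (nest n (by omega)) hW hH h
    have h3 : (n : ℝ) ≤ 4 * ((n / 4 : ℕ) : ℝ) + 3 := by
      have : n ≤ 4 * (n / 4) + 3 := by omega
      exact_mod_cast this
    have h4 : (22 : ℝ) ≤ n := by exact_mod_cast hn
    constructor <;> linarith
  refine ⟨fun n hn => ⟨EE (n / 4) n, bipartite _ _, ⟨drawing n, drawing_straight n⟩, hlow n hn⟩, ?_⟩
  intro n hn
  have hn0 : (0 : ℝ) ≤ n := n.cast_nonneg
  have hfin : {A : ℝ | ∃ E : Fin n → Fin n → Prop, IsBipartiteDAG E ∧ Nonempty (CurveDrawing E) ∧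
      A = minPolyArea E}.Finite := by
    refine (Set.finite_range (fun E : Fin n → Fin n → Prop => minPolyArea E)).subset ?_
    rintro A ⟨E, -, -, rfl⟩
    exact ⟨E, rfl⟩
  have hmem : minPolyArea (EE (n / 4) n) ∈ {A : ℝ | ∃ E : Fin n → Fin n → Prop,
      IsBipartiteDAG E ∧ Nonempty (CurveDrawing E) ∧ A = minPolyArea E} :=
    ⟨EE (n / 4) n, bipartite _ _, curveDrawing (a1 _ _ ⟨drawing n⟩), rfl⟩
  constructor
  · refine le_trans ?_ (le_csSup hfin.bddAbove hmem)
    obtain ⟨W, H, hW, hH, hfit⟩ := (drawing n).exists_box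
    refine le_csInf ⟨W * H, drawing n, W, H, hW, hH, hfit, rfl⟩ ?_
    rintro A ⟨D, W, H, hW, hH, hfit, rfl⟩
    obtain ⟨h1, h2⟩ := hlow n hn D W H hW hH hfit
    calc (n : ℝ) ^ 2 / 256 = (n : ℝ) / 16 * ((n : ℝ) / 16) := by ring
      _ ≤ W * H := mul_le_mul h1 h2 (by positivity) hW
  · refine csSup_le ⟨_, hmem⟩ ?_
    rintro A ⟨E, hE, hM, rfl⟩
    obtain ⟨D, -, h2⟩ := StraightLineTheta.result.1 n (by omega) E hE hM
    refine (minPolyArea_le D (by positivity) (by positivity) h2).trans (le_of_eq ?_)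
    ring

end Pool.Agent.Results.MP_9caa86_co.PolyLineThetaH51
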